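import Pool.Agent.Y983.GefProb
import Pool.Agent.Y983.Capacity

/-!
# MP_629fb1: the capacity formula for hole probabilities fails, even for convex sets

For the Gaussian entire function and every `M > 1` there is a closed rectangle `K` whose hole
exponent is, for all large `r`, at most `1/M` times the conjectured value `(e²/4) c(K)⁴ r⁴`.
-/

open MeasureTheory Filter
open scoped Topology

namespace Pool.Agent.Results.MP_629fb1_pr.ThinRectangles

open Pool.Agent.Y983.Gef

/-- the rectangle `[1 - s², 1 - s²/2] × [-s/2, s/2]` -/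
def rect (s : ℝ) : Set ℂ := Set.Icc (1 - s ^ 2) (1 - s ^ 2 / 2) ×ℂ Set.Icc (-(s / 2)) (s / 2)

lemma rect_annulus {s : ℝ} (hs : 0 < s) (hs1 : s ≤ 1 / 2) {z : ℂ} (hz : z ∈ rect s) :
    1 - s ^ 2 ≤ ‖z‖ ∧ ‖z‖ ≤ 1 := by
  obtain ⟨⟨h1, h2⟩, h3, h4⟩ := hz
  constructor
  · calc 1 - s ^ 2 ≤ z.re := h1
      _ ≤ |z.re| := le_abs_self _
      _ ≤ ‖z‖ := Complex.abs_re_le_norm z
  · have h5 : ‖z‖ ^ 2 ≤ 1 ^ 2 := by
      rw [← Complex.normSq_eq_norm_sq, Complex.normSq_apply]
      have h6 : z.im * z.im ≤ (s / 2) * (s / 2) := by nlinarith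
      have h7 : 0 ≤ z.re := by nlinarith
      have h8 : z.re * z.re ≤ (1 - s ^ 2 / 2) * (1 - s ^ 2 / 2) := by
        apply mul_self_le_mul_self h7 h2
      nlinarith [sq_nonneg s, mul_pos hs hs]
    exact le_of_pow_le_pow_left₀ (by norm_num) zero_le_one h5

lemma convex_rect (s : ℝ) : Convex ℝ (rect s) :=
  ((convex_Icc _ _).is_linear_preimage (f := fun z : ℂ => z.re)
    ⟨Complex.add_re, fun c z => by simp⟩).inter
  ((convex_Icc _ _).is_linear_preimage (f := fun z : ℂ => z.im)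
    ⟨Complex.add_im, fun c z => by simp⟩)

lemma re_aux (a y : ℝ) : ((a : ℂ) + y * Complex.I).re = a := by simp

lemma im_aux (a y : ℝ) : ((a : ℂ) + y * Complex.I).im = y := by simp

/-- **Main result** (negative answer to Q1, for convex sets and with an arbitrarily large factor).
For every `M > 1` there is a compact convex set `K` (a closed rectangle) with non-empty interior
such that `p_{H,K}(f;r) ≤ (1/M) (e²/4) c(K)⁴ r⁴` for all large `r`. In particular
`r⁻⁴ p_{H,K}(f;r)` does not converge to `(e²/4) c(K)⁴`. -/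
theorem result (M : ℝ) (hM : 1 < M) : ∃ K : Set ℂ, IsCompact K ∧ Convex ℝ K ∧ IsConnected K ∧
    (interior K).Nonempty ∧ 0 < cap K ∧ Tendsto (fun n => nDiam K n) atTop (𝓝 (cap K)) ∧
    (∀ᶠ r : ℝ in atTop, holeExponent K r ≤ (1 / M) * (Real.exp 2 / 4 * cap K ^ 4 * r ^ 4)) ∧
    ¬ Tendsto (fun r : ℝ => holeExponent K r / r ^ 4) atTop (𝓝 (Real.exp 2 / 4 * cap K ^ 4)) := by
  have hM0 : 0 < M := by linarith
  set δ : ℝ := 1 / (20480 * M) with hδ
  have hδ0 : 0 < δ := by positivity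
  have hδM : 20480 * M * δ = 1 := by rw [hδ]; field_simp
  have hδ4 : δ ≤ 1 / 4 := by
    rw [hδ]
    apply one_div_le_one_div_of_le (by norm_num) (by linarith)
  set s : ℝ := √δ with hs
  have hs2 : s ^ 2 = δ := Real.sq_sqrt hδ0.le
  have hs0 : 0 < s := Real.sqrt_pos.2 hδ0
  have hs1 : s ≤ 1 / 2 := by
    rw [hs, Real.sqrt_le_left (by norm_num)]
    calc δ ≤ 1 / 4 := hδ4
      _ = (1 / 2) ^ 2 := by norm_num
  clear_value s
  clear hs
  clear_value δ
  clear hδ
  have hcomp : IsCompact (rect s) := isCompact_Icc.reProdIm isCompact_Icc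
  have hconv : Convex ℝ (rect s) := convex_rect s
  have hint : (interior (rect s)).Nonempty := by
    refine ⟨⟨1 - 3 / 4 * s ^ 2, 0⟩, ?_⟩
    rw [rect, Complex.interior_reProdIm, interior_Icc, interior_Icc]
    refine ⟨⟨?_, ?_⟩, ?_, ?_⟩ <;> simp only <;> nlinarith [mul_pos hs0 hs0]
  have hne : (rect s).Nonempty := hint.mono interior_subset
  have hconn : IsConnected (rect s) := ⟨hne, hconv.isPreconnected⟩
  have hcap : s / (2 * Real.exp 1) ≤ cap (rect s) := by
    refine cap_ge hcomp.isBounded (x := 1 - s ^ 2) hs0 (fun y hy => ?_)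
    rw [abs_le] at hy
    rw [rect, Complex.mem_reProdIm, re_aux, im_aux]
    exact ⟨⟨le_rfl, by nlinarith [mul_pos hs0 hs0]⟩, hy⟩
  have he0 := Real.exp_pos 1
  have he8 : Real.exp 1 ^ 2 ≤ 8 := by
    have := Real.exp_one_lt_d9
    nlinarith
  have he2 : Real.exp 2 = Real.exp 1 ^ 2 := by
    rw [← Real.exp_nat_mul]; norm_num
  have hcap0 : 0 < cap (rect s) := lt_of_lt_of_le (by positivity) hcap
  have hcap4 : δ ^ 2 / (16 * Real.exp 1 ^ 4) ≤ cap (rect s) ^ 4 := by
    calc δ ^ 2 / (16 * Real.exp 1 ^ 4) = (s / (2 * Real.exp 1)) ^ 4 := by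
          have : δ ^ 2 = s ^ 4 := by rw [← hs2]; ring
          rw [div_pow, mul_pow, this]; norm_num
      _ ≤ _ := pow_le_pow_left₀ (by positivity) hcap 4
  have hkey : 40 * δ ^ 3 ≤ (1 / M) * (Real.exp 2 / 4 * cap (rect s) ^ 4) := by
    have h1 : δ ^ 2 / (64 * Real.exp 1 ^ 2) ≤ Real.exp 2 / 4 * cap (rect s) ^ 4 := by
      calc δ ^ 2 / (64 * Real.exp 1 ^ 2) =
            Real.exp 1 ^ 2 / 4 * (δ ^ 2 / (16 * Real.exp 1 ^ 4)) := by
            field_simp; norm_num
        _ ≤ _ := by rw [he2]; gcongr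
    refine le_trans ?_ (mul_le_mul_of_nonneg_left h1 (by positivity))
    have h2 : δ ^ 2 / 512 ≤ δ ^ 2 / (64 * Real.exp 1 ^ 2) := by
      apply div_le_div_of_nonneg_left (by positivity) (by positivity)
      linarith
    refine le_trans ?_ (mul_le_mul_of_nonneg_left h2 (by positivity))
    have h3 : 40 * δ ^ 3 = (1 / M) * (δ ^ 2 / 512) * (20480 * M * δ) := by
      field_simp; ring
    rw [h3, hδM, mul_one]
  have hev : ∀ᶠ r : ℝ in atTop, holeExponent (rect s) r ≤
      (1 / M) * (Real.exp 2 / 4 * cap (rect s) ^ 4 * r ^ 4) := by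
    filter_upwards [eventually_ge_atTop (1000 / δ ^ 3)] with r hr
    have h1 := holeExponent_le' (K := rect s) hδ0 (by linarith)
      (fun z hz => by rw [← hs2]; exact rect_annulus hs0 hs1 hz) hr
    refine h1.trans ?_
    calc 40 * δ ^ 3 * r ^ 4 ≤ ((1 / M) * (Real.exp 2 / 4 * cap (rect s) ^ 4)) * r ^ 4 := by
          gcongr
      _ = _ := by ring
  refine ⟨rect s, hcomp, hconv, hconn, hint, hcap0, tendsto_nDiam hcomp.isBounded hne, hev, ?_⟩
  intro hlim
  set c := Real.exp 2 / 4 * cap (rect s) ^ 4 with hc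
  have hc0 : 0 < c := by rw [hc]; positivity
  have hle : c ≤ (1 / M) * c := by
    refine le_of_tendsto hlim ?_
    filter_upwards [hev, eventually_gt_atTop 0] with r hr hr0
    rw [div_le_iff₀ (by positivity)]
    calc _ ≤ _ := hr
      _ = _ := by ring
  have h1 : (1 / M) * c < 1 * c := by
    apply mul_lt_mul_of_pos_right _ hc0
    rw [div_lt_one hM0]; exact hM
  linarith

end Pool.Agent.Results.MP_629fb1_pr.ThinRectangles
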